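import Mathlib
import Pool.Agent.H43C.Sc

/-!
# MP_528be1_nt: any `N` multiple Clausen values, modulo almost all multiple Clausen values

For every `N` and `ε > 0`, in every linear relation with coefficients bounded by `C ^ k` (`C`
arbitrary) between `1`, the real parts and the imaginary parts of the multiple Clausen values of at
most `N` arbitrary indices of weight at most `k` with first entry at least `ε k` and of arbitrarily
many deep indices (for example of indices with at least `ε k` entries `≥ 2`, so of almost all indices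
of weight `k`), the coefficients of the indices of depth at most `1 / ε` vanish, if `k` is large. The
same for the alternating sums `Li_{a_1, ..., a_r}(-1, 1, ..., 1)`.

The proof uses the subspace theorem through germs (helper files by helper760 and helper777) in a
version with a twist of the largest summation variable (`Pool.Agent.H43C`).
-/

set_option autoImplicit false

namespace Pool.Agent.Results.MP_528be1_nt.AnyNClausenValues

/-- `trunc [s_1, ..., s_r] m` is the sum of `∏ l_i ^ (-s_i)` over `m > l_1 > ... > l_r ≥ 1` -/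
noncomputable def trunc : List ℕ → ℕ → ℝ
  | [], _ => 1
  | s :: l, m => ∑ j ∈ Finset.Ico 1 m, trunc l j / (j : ℝ) ^ s

/-- `Li_{s_1, ..., s_r}(z, 1, ..., 1)`, the sum of `z ^ l_1 ∏ l_i ^ (-s_i)` over
`l_1 > ... > l_r ≥ 1` (used for `|z| = 1` and `s_1 ≥ 2`) -/
noncomputable def li (z : ℂ) : List ℕ → ℂ
  | [] => 1
  | s :: l => ∑' k : ℕ, z ^ (k + 1) / ((k + 1 : ℕ) : ℂ) ^ s * ((trunc l (k + 1) : ℝ) : ℂ)

/-- `ω = e ^ (π i / 3)` -/
noncomputable def omega : ℂ := Complex.exp (Real.pi / 3 * Complex.I)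

/-- the multiple Clausen value `μ_w = Li_w(ω, 1, ..., 1)` -/
noncomputable def clausen (w : List ℕ) : ℂ := li omega w

/-- the alternating multiple zeta value `Li_w(-1, 1, ..., 1)` -/
noncomputable def alternating (w : List ℕ) : ℂ := li (-1) w

/-- the first entry `a_1` of the index `(a_1, ..., a_r)` -/
def first (w : List ℕ) : ℕ := w.headD 0

/-- indices `(a_1, ..., a_r)` with `r ≥ 1`, all `a_i ≥ 1` and `a_1 ≥ 2` -/
def Index (w : List ℕ) : Prop := w ≠ [] ∧ (∀ a ∈ w, 1 ≤ a) ∧ 2 ≤ first w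

/-- the number of entries `≥ 2` -/
def height (w : List ℕ) : ℕ := w.countP (fun s => decide (2 ≤ s))

/-- deep indices: at least `ε k` entries are `≥ 2`, or the first entry and the depth are both at
least `ε k` -/
def Deep (ε : ℝ) (k : ℕ) (w : List ℕ) : Prop :=
  ε * k ≤ height w ∨ (ε * k ≤ first w ∧ ε * k ≤ w.length)

/-- the numbers `∑ β_j a_j` with integers `a_j` of absolute value at most `A` -/
def Coefficient {l : ℕ} (β : Fin l → ℝ) (A x : ℝ) : Prop :=
  ∃ a : Fin l → ℤ, (∀ j, |(a j : ℝ)| ≤ A) ∧ x = ∑ j, β j * a j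

lemma trunc_eq (w : List ℕ) : ∀ m, trunc w m = Pool.Agent.Y760.ZG.hr w m := by
  induction w with
  | nil => intro m; rw [trunc, Pool.Agent.Y760.ZG.hr_nil]
  | cons s w ih =>
    intro m
    rw [trunc, Pool.Agent.Y760.ZG.hr_cons]
    exact Finset.sum_congr rfl fun j _ => by rw [ih]

lemma li_eq (z : ℂ) : li z = Pool.Agent.H43C.Lz z := by
  funext w
  cases w with
  | nil => rw [li, Pool.Agent.H43C.Lz]
  | cons s w =>
    rw [li, Pool.Agent.H43C.Lz]
    exact tsum_congr fun m => by rw [trunc_eq]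

lemma omega_pow : omega ^ 6 = 1 := by
  rw [omega, ← Complex.exp_nat_mul, ← Complex.exp_two_pi_mul_I]
  congr 1
  push_cast
  ring

lemma omega_re : omega.re ≠ 0 := by
  have h : ((Real.pi : ℂ) / 3) = ((Real.pi / 3 : ℝ) : ℂ) := by push_cast; rfl
  rw [omega, h, Complex.exp_ofReal_mul_I_re, Real.cos_pi_div_three]
  norm_num

lemma omega_im : omega.im ≠ 0 := by
  have h : ((Real.pi : ℂ) / 3) = ((Real.pi / 3 : ℝ) : ℂ) := by push_cast; rfl
  rw [omega, h, Complex.exp_ofReal_mul_I_im, Real.sin_pi_div_three]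
  positivity

lemma first_head {w : List ℕ} {a : ℕ} (ha : a ∈ w.head?) : first w = a := by
  cases w with
  | nil => simp at ha
  | cons b u =>
    rw [List.head?_cons, Option.mem_def, Option.some.injEq] at ha
    rw [first, List.headD_cons, ha]

lemma index_head {w : List ℕ} (h : Index w) : ∀ a ∈ w.head?, 2 ≤ a := by
  intro a ha
  rw [← first_head ha]
  exact h.2.2

lemma clausen_re {w : List ℕ} (h : Index w) :
    Pool.Agent.H43C.mzt (Pool.Agent.H43C.xb omega true) w = (clausen w).re := by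
  rw [clausen, li_eq, Pool.Agent.H43C.Lz_re (Pool.Agent.H43C.root_norm (by norm_num) omega_pow)
    h.1 h.2.1 (index_head h)]
  congr 1

lemma clausen_im {w : List ℕ} (h : Index w) :
    Pool.Agent.H43C.mzt (Pool.Agent.H43C.xb omega false) w = (clausen w).im := by
  rw [clausen, li_eq, Pool.Agent.H43C.Lz_im (Pool.Agent.H43C.root_norm (by norm_num) omega_pow)
    h.1 h.2.1 (index_head h)]
  congr 1

lemma alternating_re {w : List ℕ} (h : Index w) :
    Pool.Agent.H43C.mzt (Pool.Agent.H43C.xs ()) w = (alternating w).re := by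
  rw [alternating, li_eq, Pool.Agent.H43C.Lz_neg h.1 h.2.1 (index_head h)]

/-- a nonzero number with given integer coordinates -/
lemma coord_ne {l : ℕ} {β : Fin l → ℝ} {x : ℝ} {a : Fin l → ℤ} (h : x = ∑ j, β j * a j)
    (hx : x ≠ 0) : ∃ j, a j ≠ 0 := by
  by_contra hcon
  push Not at hcon
  apply hx
  rw [h]
  exact Finset.sum_eq_zero fun j _ => by rw [hcon j, Int.cast_zero, mul_zero]

open Classical in
/-- the two kinds of values -/
theorem measures {l : ℕ} (β : Fin l → ℝ) (hβ : ∀ j, IsAlgebraic ℚ (β j))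
    (hli : LinearIndependent ℚ β) (N : ℕ) (C ε : ℝ) (hε : 0 < ε) :
    ∃ B : ℝ, 1 < B ∧ ∃ k0 : ℕ, ∀ k : ℕ, k0 ≤ k → ∀ W H : Finset (List ℕ), W.card ≤ N →
      (∀ w ∈ W, Index w ∧ w.sum ≤ k ∧ ε * k ≤ first w) →
      (∀ h ∈ H, Index h ∧ h.sum ≤ k ∧ Deep ε k h) →
      (∀ (x0 : ℝ) (x y u v : List ℕ → ℝ), Coefficient β (C ^ k) x0 →
        (∀ w ∈ W, Coefficient β (C ^ k) (x w) ∧ Coefficient β (C ^ k) (y w)) →
        (∀ h ∈ H, |u h| ≤ C ^ k ∧ |v h| ≤ C ^ k) →
        (x0 ≠ 0 ∨ ∃ w ∈ W, (w.length : ℝ) ≤ 1 / ε ∧ (x w ≠ 0 ∨ y w ≠ 0)) →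
        1 / B ^ k < |x0 + ∑ w ∈ W, (x w * (clausen w).re + y w * (clausen w).im) +
          ∑ h ∈ H, (u h * (clausen h).re + v h * (clausen h).im)|) ∧
      (∀ (x0 : ℝ) (x u : List ℕ → ℝ), Coefficient β (C ^ k) x0 →
        (∀ w ∈ W, Coefficient β (C ^ k) (x w)) → (∀ h ∈ H, |u h| ≤ C ^ k) →
        (x0 ≠ 0 ∨ ∃ w ∈ W, (w.length : ℝ) ≤ 1 / ε ∧ x w ≠ 0) →
        1 / B ^ k < |x0 + ∑ w ∈ W, x w * (alternating w).re +
          ∑ h ∈ H, u h * (alternating h).re|) := by
  obtain ⟨B1, hB1, k1, h1⟩ := Pool.Agent.H43C.scale β hβ hli (Pool.Agent.H43C.xb omega)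
    (Pool.Agent.H43C.xb_alg (by norm_num) omega_pow) (by norm_num)
    (Pool.Agent.H43C.tws_b (by norm_num) omega_pow omega_re omega_im)
    (Pool.Agent.H43C.mb omega)
    (Pool.Agent.H43C.mu_b (by norm_num) omega_pow omega_re omega_im) zero_le_one N C ε hε
  obtain ⟨B2, hB2, k2, h2⟩ := Pool.Agent.H43C.scale β hβ hli Pool.Agent.H43C.xs
    (fun _ m => (isAlgebraic_one.neg : IsAlgebraic ℚ (-1 : ℝ)).pow m) (by norm_num)
    Pool.Agent.H43C.tws_s (fun _ _ => -1) Pool.Agent.H43C.mu_s zero_le_one N C ε hε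
  refine ⟨max B1 B2, lt_max_of_lt_left hB1, max k1 k2, ?_⟩
  intro k hk W H hWN hW hH
  have hW' : ∀ w ∈ W, w ≠ [] ∧ (∀ m ∈ w, 1 ≤ m) ∧ w.sum ≤ k ∧
      ∀ a ∈ w.head?, ε * k ≤ (a : ℝ) := by
    intro w hw
    obtain ⟨e1, e2, e3⟩ := hW w hw
    refine ⟨e1.1, e1.2.1, e2, fun a ha => ?_⟩
    rw [← first_head ha]
    exact e3
  have hH' : ∀ h ∈ H, h ≠ [] ∧ (∀ m ∈ h, 1 ≤ m) ∧ (∀ a ∈ h.head?, 2 ≤ a) ∧ h.sum ≤ k ∧
      (ε * k ≤ Pool.Agent.Y777.AM.ht h ∨
        ((∀ a ∈ h.head?, ε * k ≤ (a : ℝ)) ∧ ε * k ≤ h.length)) := by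
    intro h hh
    obtain ⟨e1, e2, e3⟩ := hH h hh
    refine ⟨e1.1, e1.2.1, index_head e1, e2, ?_⟩
    rcases e3 with e3 | ⟨e3, e4⟩
    · exact Or.inl e3
    · refine Or.inr ⟨fun a ha => ?_, e4⟩
      rw [← first_head ha]
      exact e3
  have hBB : ∀ B : ℝ, 1 < B → B ≤ max B1 B2 → 1 / (max B1 B2) ^ k ≤ (B ^ k)⁻¹ := by
    intro B hB hB'
    rw [one_div]
    exact inv_anti₀ (by positivity) (pow_le_pow_left₀ (by linarith only [hB]) hB' _)
  constructor
  · intro x0 x y u v hx0 hxy huv hne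
    obtain ⟨b, hb, hbx⟩ := hx0
    choose! ax hax1 hax2 using fun w hw => (hxy w hw).1
    choose! ay hay1 hay2 using fun w hw => (hxy w hw).2
    have h3 := h1 k ((le_max_left _ _).trans hk) W H hWN hW' hH' b
      (fun w t => if t then ax w else ay w) (fun w t => if t then u w else v w) (by
        rcases hne with h4 | ⟨w, hw, h5, h6⟩
        · exact Or.inl (coord_ne hbx h4)
        · rcases h6 with h6 | h6
          · obtain ⟨j, hj⟩ := coord_ne (hax2 w hw) h6
            exact Or.inr ⟨w, hw, h5, true, j, by simpa using hj⟩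
          · obtain ⟨j, hj⟩ := coord_ne (hay2 w hw) h6
            exact Or.inr ⟨w, hw, h5, false, j, by simpa using hj⟩) hb (by
        intro w hw t j
        cases t
        · simpa using hay1 w hw j
        · simpa using hax1 w hw j) (by
        intro h hh t
        cases t
        · simpa using (huv h hh).2
        · simpa using (huv h hh).1)
    refine (hBB B1 hB1 (le_max_left _ _)).trans_lt (h3.trans_eq ?_)
    congr 1
    rw [← hbx]
    congr 1
    · congr 1
      refine Finset.sum_congr rfl fun w hw => ?_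
      rw [Fintype.sum_bool]
      simp only [if_true, Bool.false_eq_true, if_false]
      rw [← Finset.sum_mul, ← Finset.sum_mul, ← hax2 w hw, ← hay2 w hw,
        clausen_re (hW w hw).1, clausen_im (hW w hw).1]
    · refine Finset.sum_congr rfl fun h hh => ?_
      rw [Fintype.sum_bool]
      simp only [if_true, Bool.false_eq_true, if_false]
      rw [clausen_re (hH h hh).1, clausen_im (hH h hh).1]
  · intro x0 x u hx0 hx hu hne
    obtain ⟨b, hb, hbx⟩ := hx0
    choose! ax hax1 hax2 using hx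
    have h3 := h2 k ((le_max_right _ _).trans hk) W H hWN hW' hH' b
      (fun w _ => ax w) (fun w _ => u w) (by
        rcases hne with h4 | ⟨w, hw, h5, h6⟩
        · exact Or.inl (coord_ne hbx h4)
        · obtain ⟨j, hj⟩ := coord_ne (hax2 w hw) h6
          exact Or.inr ⟨w, hw, h5, (), j, hj⟩) hb (fun w hw _ j => hax1 w hw j)
      (fun h hh _ => hu h hh)
    refine (hBB B2 hB2 (le_max_right _ _)).trans_lt (h3.trans_eq ?_)
    congr 1
    rw [← hbx]
    congr 1
    · congr 1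
      refine Finset.sum_congr rfl fun w hw => ?_
      rw [Fintype.sum_unique, ← Finset.sum_mul, ← hax2 w hw]
      rw [show (default : Unit) = () from rfl, alternating_re (hW w hw).1]
    · refine Finset.sum_congr rfl fun h hh => ?_
      rw [Fintype.sum_unique]
      rw [show (default : Unit) = () from rfl, alternating_re (hH h hh).1]

/-- **Part 1.** Let `β_1, ..., β_l` be real algebraic numbers, linearly independent over `ℚ`, `ε > 0`,
and let `N` and `C` be arbitrary. There are `B > 1` and `k0` such that for all `k ≥ k0`: let `W` be a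
set of at most `N` indices of weight `≤ k` with first entry `≥ ε k`, and `H` a finite set of deep
indices of weight `≤ k`. Let `x_0`, `x_w`, `y_w` (`w ∈ W`) be of the form `∑ β_j a_j` with integers
`|a_j| ≤ C ^ k`, and `u_h`, `v_h` (`h ∈ H`) arbitrary real numbers of absolute value `≤ C ^ k`. If
`x_0 ≠ 0` or `(x_w, y_w) ≠ (0, 0)` for some `w ∈ W` of depth `≤ 1 / ε`, then
`|x_0 + ∑_W (x_w Re μ_w + y_w Im μ_w) + ∑_H (u_h Re μ_h + v_h Im μ_h)| > B ^ (-k)`, and in the same
way for the real numbers `Li_w(-1, 1, ..., 1)`.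

**Part 2.** Let `ε > 0`, `N` and `C` be arbitrary. For all large `k`: let `S` be a finite set of
indices of weight `≤ k` which are all deep, with at most `N` exceptions, whose first entries are
`≥ ε k`. If integers `c_w` of absolute value `≤ C ^ k` satisfy `∑_S c_w Re μ_w = 0` or
`∑_S c_w Im μ_w = 0` or `∑_S c_w Li_w(-1, 1, ..., 1) = 0`, then `c_w = 0` for all `w ∈ S` of depth
`≤ 1 / ε`. -/
theorem result :
    (∀ (l : ℕ) (β : Fin l → ℝ), (∀ j, IsAlgebraic ℚ (β j)) → LinearIndependent ℚ β →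
      ∀ (N : ℕ) (C ε : ℝ), 0 < ε → ∃ B : ℝ, 1 < B ∧ ∃ k0 : ℕ, ∀ k : ℕ, k0 ≤ k →
      ∀ W H : Finset (List ℕ), W.card ≤ N →
      (∀ w ∈ W, Index w ∧ w.sum ≤ k ∧ ε * k ≤ first w) →
      (∀ h ∈ H, Index h ∧ h.sum ≤ k ∧ Deep ε k h) →
      (∀ (x0 : ℝ) (x y u v : List ℕ → ℝ), Coefficient β (C ^ k) x0 →
        (∀ w ∈ W, Coefficient β (C ^ k) (x w) ∧ Coefficient β (C ^ k) (y w)) →
        (∀ h ∈ H, |u h| ≤ C ^ k ∧ |v h| ≤ C ^ k) →
        (x0 ≠ 0 ∨ ∃ w ∈ W, (w.length : ℝ) ≤ 1 / ε ∧ (x w ≠ 0 ∨ y w ≠ 0)) →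
        1 / B ^ k < |x0 + ∑ w ∈ W, (x w * (clausen w).re + y w * (clausen w).im) +
          ∑ h ∈ H, (u h * (clausen h).re + v h * (clausen h).im)|) ∧
      (∀ (x0 : ℝ) (x u : List ℕ → ℝ), Coefficient β (C ^ k) x0 →
        (∀ w ∈ W, Coefficient β (C ^ k) (x w)) → (∀ h ∈ H, |u h| ≤ C ^ k) →
        (x0 ≠ 0 ∨ ∃ w ∈ W, (w.length : ℝ) ≤ 1 / ε ∧ x w ≠ 0) →
        1 / B ^ k < |x0 + ∑ w ∈ W, x w * (alternating w).re +
          ∑ h ∈ H, u h * (alternating h).re|)) ∧
    (∀ (N : ℕ) (C ε : ℝ), 0 < ε → ∃ k0 : ℕ, ∀ k : ℕ, k0 ≤ k → ∀ S E : Finset (List ℕ), E ⊆ S →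
      E.card ≤ N → (∀ w ∈ S, Index w ∧ w.sum ≤ k) → (∀ w ∈ E, ε * k ≤ first w) →
      (∀ w ∈ S, w ∉ E → Deep ε k w) → ∀ c : List ℕ → ℤ, (∀ w ∈ S, |(c w : ℝ)| ≤ C ^ k) →
      (∑ w ∈ S, c w * (clausen w).re = 0 ∨ ∑ w ∈ S, c w * (clausen w).im = 0 ∨
        ∑ w ∈ S, c w * alternating w = 0) → ∀ w ∈ S, (w.length : ℝ) ≤ 1 / ε → c w = 0) := by
  refine ⟨fun l β hβ hli N C ε hε => measures β hβ hli N C ε hε, ?_⟩
  intro N C ε hε
  classical
  obtain ⟨B, hB, k0, h⟩ := measures (l := 1) (fun _ => 1) (fun _ => isAlgebraic_one)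
    (LinearIndependent.of_subsingleton (R := ℚ) (v := fun _ : Fin 1 => (1 : ℝ)) 0 one_ne_zero)
    N C ε hε
  refine ⟨max k0 (⌈1 / ε / ε⌉₊ + 1), ?_⟩
  intro k hk S E hES hEN hS hE hSE c hc hrel w hw hwl
  have hk0 : k0 ≤ k := (le_max_left _ _).trans hk
  have hk1 : ⌈1 / ε / ε⌉₊ + 1 ≤ k := (le_max_right _ _).trans hk
  have hk2 : 1 / ε < ε * k := by
    have h1 : 1 / ε / ε < k := by
      have h2 := Nat.le_ceil (1 / ε / ε)
      have h3 : ((⌈1 / ε / ε⌉₊ + 1 : ℕ) : ℝ) ≤ k := by exact_mod_cast hk1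
      push_cast at h3
      linarith only [h2, h3]
    rw [div_lt_iff₀ hε] at h1
    linarith only [h1]
  -- the index is not deep
  have hwE : w ∈ E := by
    by_contra hwE
    rcases hSE w hw hwE with h1 | ⟨_, h1⟩
    · have h2 : height w ≤ w.length := List.countP_le_length
      have h3 : (height w : ℝ) ≤ w.length := by exact_mod_cast h2
      linarith only [h1, h3, hwl, hk2]
    · linarith only [h1, hwl, hk2]
  by_contra hcw
  have hB0 : (0 : ℝ) < 1 / B ^ k := by positivity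
  have h1 := h k hk0 E (S \ E) hEN (fun w hw => ⟨(hS w (hES hw)).1, (hS w (hES hw)).2, hE w hw⟩)
    (fun h hh => by
      obtain ⟨h2, h3⟩ := Finset.mem_sdiff.1 hh
      exact ⟨(hS h h2).1, (hS h h2).2, hSE h h2 h3⟩)
  have hC0 : (0 : ℝ) ≤ C ^ k := (abs_nonneg _).trans (hc w hw)
  have hco : ∀ w ∈ S, Coefficient (fun _ : Fin 1 => (1 : ℝ)) (C ^ k) (c w) := fun w hw =>
    ⟨fun _ => c w, fun _ => hc w hw, by simp⟩
  have hc0 : Coefficient (fun _ : Fin 1 => (1 : ℝ)) (C ^ k) 0 :=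
    ⟨fun _ => 0, fun _ => by simpa using hC0, by simp⟩
  have hcR : (c w : ℝ) ≠ 0 := by exact_mod_cast hcw
  have hsplit : ∀ f : List ℕ → ℝ, ∑ w ∈ E, f w + ∑ w ∈ S \ E, f w = ∑ w ∈ S, f w := by
    intro f
    rw [add_comm]
    exact Finset.sum_sdiff hES
  rcases hrel with hrel | hrel | hrel
  · have h2 := h1.1 0 (fun w => c w) (fun _ => 0) (fun w => c w) (fun _ => 0) hc0
      (fun w hw => ⟨hco w (hES hw), hc0⟩)
      (fun h hh => ⟨hc h (Finset.mem_sdiff.1 hh).1, by simpa using hC0⟩)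
      (Or.inr ⟨w, hwE, hwl, Or.inl hcR⟩)
    simp only [zero_mul, add_zero, zero_add] at h2
    rw [hsplit (fun w => (c w : ℝ) * (clausen w).re), hrel, abs_zero] at h2
    linarith only [h2, hB0]
  · have h2 := h1.1 0 (fun _ => 0) (fun w => c w) (fun _ => 0) (fun w => c w) hc0
      (fun w hw => ⟨hc0, hco w (hES hw)⟩)
      (fun h hh => ⟨by simpa using hC0, hc h (Finset.mem_sdiff.1 hh).1⟩)
      (Or.inr ⟨w, hwE, hwl, Or.inr hcR⟩)
    simp only [zero_mul, zero_add] at h2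
    rw [hsplit (fun w => (c w : ℝ) * (clausen w).im), hrel, abs_zero] at h2
    linarith only [h2, hB0]
  · have hrel' : ∑ w ∈ S, (c w : ℝ) * (alternating w).re = 0 := by
      have h3 := congrArg Complex.re hrel
      rw [Complex.re_sum, Complex.zero_re] at h3
      rw [← h3]
      refine Finset.sum_congr rfl fun w _ => ?_
      rw [Complex.mul_re, Complex.intCast_re, Complex.intCast_im, zero_mul, sub_zero]
    have h2 := h1.2 0 (fun w => c w) (fun w => c w) hc0 (fun w hw => hco w (hES hw))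
      (fun h hh => hc h (Finset.mem_sdiff.1 hh).1) (Or.inr ⟨w, hwE, hwl, hcR⟩)
    simp only [zero_add] at h2
    rw [hsplit (fun w => (c w : ℝ) * (alternating w).re), hrel', abs_zero] at h2
    linarith only [h2, hB0]

end Pool.Agent.Results.MP_528be1_nt.AnyNClausenValues
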