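import Mathlib
import Pool.Agent.H11Z.Mix

/-!
# MP_528be1_nt: the dimension of `Z_w(N)` grows with the weight

`Z_w(N)` is the rational space spanned by the values `Li w` for the admissible words of level `N` and weight `w`, with
`Z_0(N) = ℚ`. Let `D_w(N)` be the dimension, over the field of algebraic numbers, of the space spanned by `Z_w(N)`.

Theorem (unconditional). Let `N ≥ 1`.
(1) For all `a`, `b` with `Z_a(N), Z_b(N) ≠ 0`: `D_{a + b}(N) ≥ D_a(N) + D_b(N) - 1`, and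
`dim Z_{a + b}(N) ≥ dim Z_a(N) + D_b(N) - 1`.
(2) `D_w(N) ≤ dim Z_w(N)` for all `w`, and `D_1(N) = dim Z_1(N)`.
(3) For `N ≥ 2` and all `w`: `dim Z_{w + 1}(N) ≥ dim Z_w(N) + dim Z_1(N) - 1` and
`dim Z_w(N) ≥ D_w(N) ≥ w (dim Z_1(N) - 1) + 1`.
(4) For `N ≥ 3`: `dim Z_w(N) ≥ D_w(N) ≥ w ω(N) + 1`, where `ω(N)` is the number of primes dividing `N`.
(5) For `N = 2`, the case of the alternating multiple zeta values: `D_2(2) = 2`,
`dim Z_{w + 1}(2) ≥ dim Z_w(2)`, `dim Z_{w + 2}(2) ≥ dim Z_w(2) + 1` and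
`dim Z_w(2) ≥ D_w(2) ≥ ⌊w / 2⌋ + 1` for all `w`.
-/

set_option autoImplicit false

namespace Pool.Agent.Results.MP_528be1_nt.LinearGrowth

open Filter Topology

/-- a word is a list of pairs `(a_j, z_j)`; the first pair belongs to the largest summation variable -/
abbrev Word : Type := List (ℕ × ℂ)

/-- the sum of `∏ z_j ^ ℓ_j / ℓ_j ^ a_j` over `m > ℓ_1 > ... > ℓ_n > 0` -/
noncomputable def trunc : Word → ℕ → ℂ
  | [], _ => 1
  | x :: u, m => ∑ j ∈ Finset.Ico 1 m, x.2 ^ j / (j : ℂ) ^ x.1 * trunc u j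

/-- `Li_{a_1, ..., a_n}(z_1, ..., z_n)`, the limit of the truncated sums; `Li [] = 1` -/
noncomputable def Li (w : Word) : ℂ := limUnder atTop (trunc w)

/-- the weight `a_1 + ... + a_n` -/
def weight (w : Word) : ℕ := (w.map Prod.fst).sum

/-- the admissible words of level `N`: `a_j ≥ 1`, `z_j ^ N = 1` and `(a_1, z_1) ≠ (1, 1)` -/
def Admissible (N : ℕ) (w : Word) : Prop := (∀ x ∈ w, 1 ≤ x.1 ∧ x.2 ^ N = 1) ∧ w.head? ≠ some (1, 1)

/-- the space `Z_n(N)`; `Z_0(N) = ℚ` -/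
noncomputable def Zspace (N n : ℕ) : Submodule ℚ ℂ :=
  Submodule.span ℚ (Li '' {w | Admissible N w ∧ weight w = n})

/-- the field of algebraic numbers -/
noncomputable abbrev AlgNum : IntermediateField ℚ ℂ := algebraicClosure ℚ ℂ

/-- the dimension over the algebraic numbers of the space spanned by `Z_n(N)` -/
noncomputable def algDim (N n : ℕ) : ℕ :=
  Module.finrank AlgNum (Submodule.span AlgNum (Zspace N n : Set ℂ))

open Finset
open Pool.Agent.H43L (Adm Zs)
open Pool.Agent.H11Z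

theorem trunc_eq : ∀ w m, trunc w m = Pool.Agent.X90.DM.trunc w m := by
  intro w
  induction w with
  | nil => intro m; rfl
  | cons x u ih =>
    intro m
    rw [trunc, Pool.Agent.X90.DM.trunc]
    exact sum_congr rfl fun j _ => by rw [ih]

theorem Li_eq : Li = Pool.Agent.X90.DM.li := by
  funext w
  rw [Li, Pool.Agent.X90.DM.li, funext (trunc_eq w)]

theorem Zspace_eq (N n : ℕ) : Zspace N n = Zs N n := by
  rw [Zspace, Zs, Li_eq]
  rfl

theorem finrank_Zspace (N n : ℕ) : Module.finrank ℚ (Zspace N n) = Module.finrank ℚ (Zs N n) := by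
  rw [Zspace_eq]

theorem algDim_eq (N n : ℕ) : algDim N n = aD N n := by
  rw [algDim, Zspace_eq, aD]

theorem result :
    -- (0) the spaces are finite-dimensional
    (∀ N, 1 ≤ N → ∀ w, Module.Finite ℚ (Zspace N w) ∧
      Module.Finite AlgNum (Submodule.span AlgNum (Zspace N w : Set ℂ))) ∧
    -- (1) superadditivity
    (∀ N, 1 ≤ N → ∀ a b, Zspace N a ≠ ⊥ → Zspace N b ≠ ⊥ →
      algDim N a + algDim N b ≤ algDim N (a + b) + 1 ∧
      Module.finrank ℚ (Zspace N a) + algDim N b ≤ Module.finrank ℚ (Zspace N (a + b)) + 1) ∧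
    -- (2) comparison with the rational dimension
    (∀ N, 1 ≤ N → (∀ w, algDim N w ≤ Module.finrank ℚ (Zspace N w)) ∧
      algDim N 1 = Module.finrank ℚ (Zspace N 1)) ∧
    -- (3) linear growth
    (∀ N, 2 ≤ N → ∀ w,
      Module.finrank ℚ (Zspace N w) + Module.finrank ℚ (Zspace N 1) ≤ Module.finrank ℚ (Zspace N (w + 1)) + 1 ∧
      w * (Module.finrank ℚ (Zspace N 1) - 1) + 1 ≤ algDim N w ∧
      algDim N w ≤ Module.finrank ℚ (Zspace N w)) ∧
    -- (4) the levels `N ≥ 3`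
    (∀ N, 3 ≤ N → ∀ w, w * N.primeFactors.card + 1 ≤ algDim N w ∧
      algDim N w ≤ Module.finrank ℚ (Zspace N w)) ∧
    -- (5) alternating multiple zeta values
    (algDim 2 2 = 2 ∧ ∀ w,
      Module.finrank ℚ (Zspace 2 w) ≤ Module.finrank ℚ (Zspace 2 (w + 1)) ∧
      Module.finrank ℚ (Zspace 2 w) + 1 ≤ Module.finrank ℚ (Zspace 2 (w + 2)) ∧
      w / 2 + 1 ≤ algDim 2 w ∧ algDim 2 w ≤ Module.finrank ℚ (Zspace 2 w)) := by
  simp only [finrank_Zspace, algDim_eq]
  refine ⟨fun N hN w => ?_, fun N hN a b ha hb => ?_, fun N hN => ?_, fun N hN w => ?_, fun N hN w => ?_, ?_⟩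
  · have : NeZero N := ⟨by omega⟩
    rw [Zspace_eq]
    have := finZ N w
    exact ⟨this, finite_span_Qb _⟩
  · have : NeZero N := ⟨by omega⟩
    rw [Zspace_eq] at ha hb
    exact ⟨aD_add N ha hb, mix_add N ha hb⟩
  · have : NeZero N := ⟨by omega⟩
    exact ⟨aD_le N, aD_one N⟩
  · have : NeZero N := ⟨by omega⟩
    exact ⟨next N hN w, lin_one N hN w, aD_le N w⟩
  · have : NeZero N := ⟨by omega⟩
    exact ⟨lin_three N hN w, aD_le N w⟩
  · exact ⟨aD_two_two, fun w => ⟨mono_two w, strict_two w, lin_two w, aD_le 2 w⟩⟩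

end Pool.Agent.Results.MP_528be1_nt.LinearGrowth
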