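import Mathlib
import Pool.Agent.H43L.Dm

/-!
# MP_528be1_nt: the dimensions of `C_w` and `Z_w(N)` and the small relations between values of large weight

A word is a list of pairs `(a_j, z_j)` with `a_j ≥ 1`, `Li w = Li_{a_1, ..., a_n}(z_1, ..., z_n)`; the first pair
belongs to the largest summation variable.

The relations of height at most `H` in a finite set of words of weight `k` are the relations `∑ c_w Li w = 0` with
integers `|c_w| ≤ H`. A statement holds for *almost all `k` and small heights* if for each `ε > 0` there is `δ₀ > 0` such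
that for all `0 < δ ≤ δ₀` and all large `M` it holds with `H = e^{δ M}` for all but `ε M` of the weights `k ≤ M`.

Theorem (unconditional).
(1) Let `N ≥ 1` and `W ≥ 0`. For almost all `k` the relations of small height between all values `Li w` of level `N` and
weight `k` with an entry at least `k - W` span a space of dimension
`∑_{n ≤ W} N (N + 1) ^ (W - n) (a_n(N) - dim Z_n(N))`, where `a_n(N)` is the number of admissible words of weight `n`.
(2) Let `ω ≠ 1` be a root of unity. Consider the words of weight `k` with exactly one letter `(a, ω)` and all other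
letters `(b, 1)`, such that the first entry is at least `k - W`, or the letter `(a, ω)` is the first one (multiple
Clausen values for `ω = e^{π i / 3}`) and some entry is at least `k - W`. For almost all `k` their relations of small
height span a space of dimension `∑_{1 ≤ n ≤ W} 2 ^ (W - n) (2 ^ (n - 1) - dim C_n)`.
(3), (4) So the dimensions of `Z_n(N)` (of `C_n`) for all `n` are determined by the relations of small height of large
weight: they are given by a function `f` if and only if the counts for all `W` are those with `f(n)` in place of the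
dimension. In particular the conjecture Q1 is equivalent to a statement on relations of small height.
(5) Unconditional cases: for almost all `k` there is no relation of small height in the family of (2) for
`ω = e^{π i / 3}` and `W = 2`, nor between the alternating multiple zeta values of weight `k` with an entry at least
`k - 1`, and the relations between the alternating multiple zeta values of weight `k` with an entry at least `k - 2`
span a space of dimension exactly `4`.
-/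

set_option autoImplicit false

namespace Pool.Agent.Results.MP_528be1_nt.RelationCounts

open Filter Topology

/-- a word is a list of pairs `(a_j, z_j)`; the first pair belongs to the largest summation variable -/
abbrev Word : Type := List (ℕ × ℂ)

/-- the sum of `∏ z_j ^ ℓ_j / ℓ_j ^ a_j` over `m > ℓ_1 > ... > ℓ_n > 0` -/
noncomputable def trunc : Word → ℕ → ℂ
  | [], _ => 1
  | x :: u, m => ∑ j ∈ Finset.Ico 1 m, x.2 ^ j / (j : ℂ) ^ x.1 * trunc u j

/-- `Li_{a_1, ..., a_n}(z_1, ..., z_n)`, the limit of the truncated sums; `Li [] = 1` -/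
noncomputable def Li (w : Word) : ℂ := limUnder atTop (trunc w)

/-- the weight `a_1 + ... + a_n` -/
def weight (w : Word) : ℕ := (w.map Prod.fst).sum

/-- the admissible words of level `N`: `a_j ≥ 1`, `z_j ^ N = 1` and `(a_1, z_1) ≠ (1, 1)` -/
def Admissible (N : ℕ) (w : Word) : Prop := (∀ x ∈ w, 1 ≤ x.1 ∧ x.2 ^ N = 1) ∧ w.head? ≠ some (1, 1)

/-- the space `Z_n(N)`; `Z_0(N) = ℚ` -/
noncomputable def Zspace (N n : ℕ) : Submodule ℚ ℂ :=
  Submodule.span ℚ (Li '' {w | Admissible N w ∧ weight w = n})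

/-- the number of admissible words of level `N` and weight `n` -/
def numWords (N : ℕ) : ℕ → ℕ
  | 0 => 1
  | 1 => N - 1
  | n + 2 => N ^ 2 * (N + 1) ^ n

/-- all letters are `(a, 1)` with `a ≥ 1` -/
def Untwisted (u : Word) : Prop := ∀ x ∈ u, 1 ≤ x.1 ∧ x.2 = 1

/-- the words `(a_1, ω), (a_2, 1), ..., (a_n, 1)` with `n ≥ 1` and `a_j ≥ 1` -/
def Clausen (ω : ℂ) (w : Word) : Prop := ∃ a u, w = (a, ω) :: u ∧ 1 ≤ a ∧ Untwisted u

/-- the words with one letter `(a, ω)` and all other letters `(b, 1)` -/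
def OneTwist (ω : ℂ) (w : Word) : Prop := ∃ p a u, w = p ++ (a, ω) :: u ∧ 1 ≤ a ∧ Untwisted (p ++ u)

/-- the space `C_n` of the multiple Clausen values of weight `n` -/
noncomputable def Cspace (ω : ℂ) (n : ℕ) : Submodule ℚ ℂ :=
  Submodule.span ℚ (Li '' {w | Clausen ω w ∧ weight w = n})

/-- the words of level `N` and weight `k` with an entry at least `k - W` -/
def LevelFamily (N W k : ℕ) : Set Word :=
  {w | Admissible N w ∧ weight w = k ∧ ∃ x ∈ w, k ≤ x.1 + W}

/-- the words of weight `k` with one twist `ω` such that the first entry is at least `k - W`, or the first letter is the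
twisted one and some entry is at least `k - W` -/
def ClausenFamily (ω : ℂ) (W k : ℕ) : Set Word :=
  {w | OneTwist ω w ∧ weight w = k ∧
    ((Clausen ω w ∧ ∃ x ∈ w, k ≤ x.1 + W) ∨ ∃ x u, w = x :: u ∧ k ≤ x.1 + W)}

/-- the space spanned by the relations with integer coefficients of absolute value at most `H` -/
noncomputable def relationSpace (F : Set Word) (H : ℝ) : Submodule ℚ (Word →₀ ℚ) :=
  Submodule.span ℚ {c | (∀ w ∈ c.support, w ∈ F) ∧ (∀ w, ∃ z : ℤ, c w = z ∧ |(z : ℝ)| ≤ H) ∧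
    c.sum (fun w x => (x : ℂ) * Li w) = 0}

/-- for all `ε > 0` there is `δ₀ > 0` such that for all `0 < δ ≤ δ₀` and all sufficiently large `M` the statement
`P (e ^ (δ M)) k` holds for all but at most `ε M` of the `k ≤ M` -/
def AlmostAll (P : ℝ → ℕ → Prop) : Prop :=
  ∀ ε : ℝ, 0 < ε → ∃ δ₀ : ℝ, 0 < δ₀ ∧ ∀ δ : ℝ, 0 < δ → δ ≤ δ₀ → ∃ M₀ : ℕ, ∀ M : ℕ, M₀ ≤ M →
    (({k : ℕ | k ≤ M ∧ ¬ P (Real.exp (δ * M)) k}.ncard : ℕ) : ℝ) ≤ ε * M

/-- the number `e^{π i / 3}` -/
noncomputable def omega : ℂ := Complex.exp (Real.pi * Complex.I / 3)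

open Finset
open Pool.Agent.H43L (Adm LF Zs aN Un Clw One CFm Cs relF om)

theorem trunc_eq : ∀ w m, trunc w m = Pool.Agent.X90.DM.trunc w m := by
  intro w
  induction w with
  | nil => intro m; rfl
  | cons x u ih =>
    intro m
    rw [trunc, Pool.Agent.X90.DM.trunc]
    exact sum_congr rfl fun j _ => by rw [ih]

theorem Li_eq : Li = Pool.Agent.X90.DM.li := by
  funext w
  rw [Li, Pool.Agent.X90.DM.li, funext (trunc_eq w)]

theorem Zspace_eq (N n : ℕ) : Zspace N n = Zs N n := by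
  rw [Zspace, Zs, Li_eq]
  rfl

theorem Cspace_eq (ω : ℂ) (n : ℕ) : Cspace ω n = Cs ω n := by
  rw [Cspace, Cs, Li_eq]
  rfl

theorem relationSpace_eq (F : Set Word) (H : ℝ) : relationSpace F H = relF F H := by
  rw [relationSpace, relF, Li_eq]

theorem finrank_Zspace (N n : ℕ) : Module.finrank ℚ (Zspace N n) = Module.finrank ℚ (Zs N n) := by
  rw [Zspace_eq]

theorem finrank_Cspace (ω : ℂ) (n : ℕ) : Module.finrank ℚ (Cspace ω n) = Module.finrank ℚ (Cs ω n) := by
  rw [Cspace_eq]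

theorem num_eq (N : ℕ) : ∀ n, numWords N n = aN N n
  | 0 => rfl
  | 1 => rfl
  | _ + 2 => rfl

theorem finite_bad (M : ℕ) (Q : ℕ → Prop) : {k : ℕ | k ≤ M ∧ Q k}.Finite :=
  (Finset.Iic M).finite_toSet.subset fun _ hk => Finset.mem_coe.2 (Finset.mem_Iic.2 hk.1)

theorem AlmostAll.mono {P Q : ℝ → ℕ → Prop} (h : AlmostAll P) (hPQ : ∀ H k, 0 < H → P H k → Q H k) :
    AlmostAll Q := by
  intro ε hε
  obtain ⟨δ₀, hδ₀, h1⟩ := h ε hε
  refine ⟨δ₀, hδ₀, fun δ hδ hδ' => ?_⟩
  obtain ⟨M₀, hM₀⟩ := h1 δ hδ hδ'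
  refine ⟨M₀, fun M hM => le_trans ?_ (hM₀ M hM)⟩
  have h2 : {k : ℕ | k ≤ M ∧ ¬ Q (Real.exp (δ * M)) k} ⊆ {k : ℕ | k ≤ M ∧ ¬ P (Real.exp (δ * M)) k} :=
    fun k hk => ⟨hk.1, fun hP => hk.2 (hPQ _ k (Real.exp_pos _) hP)⟩
  exact_mod_cast Set.ncard_le_ncard h2 (finite_bad M _)

theorem AlmostAll.and {P Q : ℝ → ℕ → Prop} (h : AlmostAll P) (h' : AlmostAll Q) :
    AlmostAll fun H k => P H k ∧ Q H k := by
  intro ε hε
  obtain ⟨δ₀, hδ₀, h1⟩ := h (ε / 2) (by positivity)
  obtain ⟨δ₁, hδ₁, h2⟩ := h' (ε / 2) (by positivity)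
  refine ⟨min δ₀ δ₁, lt_min hδ₀ hδ₁, fun δ hδ hδ' => ?_⟩
  obtain ⟨M₀, hM₀⟩ := h1 δ hδ (hδ'.trans (min_le_left _ _))
  obtain ⟨M₁, hM₁⟩ := h2 δ hδ (hδ'.trans (min_le_right _ _))
  refine ⟨M₀ + M₁, fun M hM => ?_⟩
  have h3 := hM₀ M (by omega)
  have h4 := hM₁ M (by omega)
  have h5 : {k : ℕ | k ≤ M ∧ ¬ (P (Real.exp (δ * M)) k ∧ Q (Real.exp (δ * M)) k)}.ncard ≤
      {k : ℕ | k ≤ M ∧ ¬ P (Real.exp (δ * M)) k}.ncard +
        {k : ℕ | k ≤ M ∧ ¬ Q (Real.exp (δ * M)) k}.ncard := by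
    refine (Set.ncard_le_ncard ?_ ((finite_bad M _).union (finite_bad M _))).trans (Set.ncard_union_le _ _)
    rintro k ⟨hk, hk'⟩
    by_cases h : P (Real.exp (δ * M)) k
    · exact Or.inr ⟨hk, fun hQ => hk' ⟨h, hQ⟩⟩
    · exact Or.inl ⟨hk, h⟩
  have h6 : (({k : ℕ | k ≤ M ∧ ¬ (P (Real.exp (δ * M)) k ∧ Q (Real.exp (δ * M)) k)}.ncard : ℕ) : ℝ) ≤
      ({k : ℕ | k ≤ M ∧ ¬ P (Real.exp (δ * M)) k}.ncard : ℝ) +
        ({k : ℕ | k ≤ M ∧ ¬ Q (Real.exp (δ * M)) k}.ncard : ℝ) := by exact_mod_cast h5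
  linarith

/-- almost all is at least one -/
theorem AlmostAll.exists {P : ℝ → ℕ → Prop} (h : AlmostAll P) : ∃ H k, P H k := by
  obtain ⟨δ₀, hδ₀, h1⟩ := h (1 / 2) (by norm_num)
  obtain ⟨M₀, hM₀⟩ := h1 δ₀ hδ₀ le_rfl
  by_contra hcon
  push Not at hcon
  have h2 := hM₀ M₀ le_rfl
  have h3 : {k : ℕ | k ≤ M₀ ∧ ¬ P (Real.exp (δ₀ * M₀)) k} = ((Finset.Iic M₀ : Finset ℕ) : Set ℕ) := by
    ext k
    rw [Finset.mem_coe, Finset.mem_Iic]
    exact ⟨fun h => h.1, fun h => ⟨h, hcon _ k⟩⟩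
  rw [h3, Set.ncard_coe_finset, Nat.card_Iic] at h2
  push_cast at h2
  have h4 : (0 : ℝ) ≤ M₀ := Nat.cast_nonneg _
  linarith

/-- the weighted sums determine the numbers -/
theorem eq_of_sums (r c : ℕ) (hc : 1 ≤ c) (x y : ℕ → ℕ) (h : ∀ W, ∑ n ∈ range (W + 1), c * r ^ (W - n) * x n =
    ∑ n ∈ range (W + 1), c * r ^ (W - n) * y n) : ∀ n, x n = y n := by
  intro n
  induction n using Nat.strong_induction_on with
  | _ n ih =>
    have h1 := h n
    rw [sum_range_succ, sum_range_succ, sum_congr rfl fun m hm => by rw [ih m (mem_range.1 hm)],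
      Nat.sub_self, pow_zero, mul_one] at h1
    exact Nat.eq_of_mul_eq_mul_left (by omega) (Nat.add_left_cancel h1)

/-- (1) -/
theorem level (N : ℕ) (hN : 1 ≤ N) (W : ℕ) : AlmostAll fun H k =>
    Module.finrank ℚ (relationSpace (LevelFamily N W k) H) +
      ∑ n ∈ range (W + 1), N * (N + 1) ^ (W - n) * Module.finrank ℚ (Zspace N n) =
        ∑ n ∈ range (W + 1), N * (N + 1) ^ (W - n) * numWords N n := by
  have : NeZero N := ⟨by omega⟩
  have h0 : AlmostAll fun H k => Module.finrank ℚ (relF (LF N W k) H) +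
      ∑ n ∈ range (W + 1), N * (N + 1) ^ (W - n) * Module.finrank ℚ (Zs N n) =
        ∑ n ∈ range (W + 1), N * (N + 1) ^ (W - n) * aN N n := fun ε hε => Pool.Agent.H43L.level N W ε hε
  refine h0.mono fun H k _ h => ?_
  rw [relationSpace_eq]
  simp only [finrank_Zspace, num_eq]
  exact h

/-- (2) -/
theorem clausen (ω : ℂ) (n : ℕ) (hn : 1 ≤ n) (hω : ω ^ n = 1) (h1 : ω ≠ 1) (W : ℕ) : AlmostAll fun H k =>
    Module.finrank ℚ (relationSpace (ClausenFamily ω W k) H) +
      ∑ m ∈ range W, 2 ^ (W - 1 - m) * Module.finrank ℚ (Cspace ω (m + 1)) =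
        ∑ m ∈ range W, 2 ^ (W - 1 - m) * 2 ^ m := by
  have h0 : AlmostAll fun H k => Module.finrank ℚ (relF (CFm ω W k) H) +
      ∑ m ∈ range W, 2 ^ (W - 1 - m) * Module.finrank ℚ (Cs ω (m + 1)) =
        ∑ m ∈ range W, 2 ^ (W - 1 - m) * 2 ^ m := fun ε hε => Pool.Agent.H43L.clausen n hn hω h1 W ε hε
  refine h0.mono fun H k _ h => ?_
  rw [relationSpace_eq]
  simp only [finrank_Cspace]
  exact h

/-- (3) -/
theorem level_iff (N : ℕ) (hN : 1 ≤ N) (f : ℕ → ℕ) : (∀ n, Module.finrank ℚ (Zspace N n) = f n) ↔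
    ∀ W, AlmostAll fun H k =>
      Module.finrank ℚ (relationSpace (LevelFamily N W k) H) +
        ∑ n ∈ range (W + 1), N * (N + 1) ^ (W - n) * f n =
          ∑ n ∈ range (W + 1), N * (N + 1) ^ (W - n) * numWords N n := by
  constructor
  · intro h W
    have h1 := level N hN W
    simp only [h] at h1
    exact h1
  · intro h
    refine eq_of_sums (N + 1) N hN _ _ fun W => ?_
    obtain ⟨H, k, h1, h2⟩ := ((level N hN W).and (h W)).exists
    rw [← h2] at h1
    exact Nat.add_left_cancel h1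

/-- (3) -/
theorem clausen_iff (ω : ℂ) (n : ℕ) (hn : 1 ≤ n) (hω : ω ^ n = 1) (h1 : ω ≠ 1) (f : ℕ → ℕ) :
    (∀ w, 1 ≤ w → Module.finrank ℚ (Cspace ω w) = f w) ↔
    ∀ W, AlmostAll fun H k =>
      Module.finrank ℚ (relationSpace (ClausenFamily ω W k) H) +
        ∑ m ∈ range W, 2 ^ (W - 1 - m) * f (m + 1) = ∑ m ∈ range W, 2 ^ (W - 1 - m) * 2 ^ m := by
  constructor
  · intro h W
    have h2 := clausen ω n hn hω h1 W
    simp only [fun m : ℕ => h (m + 1) (by omega)] at h2
    exact h2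
  · intro h w hw
    have h2 : ∀ m, Module.finrank ℚ (Cspace ω (m + 1)) = f (m + 1) := by
      refine eq_of_sums 2 1 le_rfl (fun m => Module.finrank ℚ (Cspace ω (m + 1))) (fun m => f (m + 1)) fun W => ?_
      obtain ⟨H, k, h3, h4⟩ := ((clausen ω n hn hω h1 (W + 1)).and (h (W + 1))).exists
      rw [← h4] at h3
      have h5 := Nat.add_left_cancel h3
      simp only [Nat.add_sub_cancel] at h5
      simp only [one_mul]
      exact h5
    obtain ⟨m, rfl⟩ : ∃ m, w = m + 1 := ⟨w - 1, by omega⟩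
    exact h2 m

theorem omega_six : omega ^ 6 = 1 := Pool.Agent.H43L.om_six

theorem omega_ne : omega ≠ 1 := Pool.Agent.H43L.om_ne

/-- no relation, from the dimension -/
theorem no_relation {F : Set Word} (hF : F.Finite) {H : ℝ} (h : Module.finrank ℚ (relationSpace F H) = 0)
    (c : Word →₀ ℤ) (h1 : ∀ w ∈ c.support, w ∈ F) (h2 : ∀ w, |(c w : ℝ)| ≤ H)
    (h3 : c.sum (fun w x => (x : ℂ) * Li w) = 0) : c = 0 := by
  rw [relationSpace_eq] at h
  have := Pool.Agent.H43L.fin_rel hF H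
  have h4 : relF F H = ⊥ := Submodule.finrank_eq_zero.1 h
  have h5 : (c.mapRange (Int.cast : ℤ → ℚ) Int.cast_zero) ∈ relF F H := by
    rw [← relationSpace_eq]
    refine Submodule.subset_span ⟨fun w hw => h1 w (Finsupp.support_mapRange hw), fun w => ⟨c w, ?_, h2 w⟩, ?_⟩
    · rw [Finsupp.mapRange_apply]
    · rw [Finsupp.sum_mapRange_index (by simp), ← h3]
      refine Finsupp.sum_congr fun w _ => ?_
      push_cast
      rfl
  rw [h4, Submodule.mem_bot] at h5
  ext w
  have h6 := DFunLike.congr_fun h5 w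
  rw [Finsupp.mapRange_apply, Finsupp.zero_apply] at h6
  rw [Finsupp.zero_apply]
  exact_mod_cast h6

theorem result :
    -- (0) the number of words; the families are finite and the spaces are finite-dimensional
    ((∀ N, 1 ≤ N → ∀ n, {w | Admissible N w ∧ weight w = n}.ncard = numWords N n) ∧
      (∀ N, 1 ≤ N → ∀ n, Module.Finite ℚ (Zspace N n)) ∧ (∀ ω n, Module.Finite ℚ (Cspace ω n)) ∧
      (∀ N, 1 ≤ N → ∀ W k, (LevelFamily N W k).Finite) ∧ (∀ ω W k, (ClausenFamily ω W k).Finite) ∧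
      (∀ F : Set Word, F.Finite → ∀ H, Module.Finite ℚ (relationSpace F H))) ∧
    -- (1) the relations of level `N`
    (∀ N, 1 ≤ N → ∀ W, AlmostAll fun H k =>
      Module.finrank ℚ (relationSpace (LevelFamily N W k) H) +
        ∑ n ∈ Finset.range (W + 1), N * (N + 1) ^ (W - n) * Module.finrank ℚ (Zspace N n) =
          ∑ n ∈ Finset.range (W + 1), N * (N + 1) ^ (W - n) * numWords N n) ∧
    -- (2) the relations with one twist
    (∀ ω : ℂ, ω ≠ 1 → (∃ n, 1 ≤ n ∧ ω ^ n = 1) → ∀ W, AlmostAll fun H k =>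
      Module.finrank ℚ (relationSpace (ClausenFamily ω W k) H) +
        ∑ m ∈ Finset.range W, 2 ^ (W - 1 - m) * Module.finrank ℚ (Cspace ω (m + 1)) =
          ∑ m ∈ Finset.range W, 2 ^ (W - 1 - m) * 2 ^ m) ∧
    -- (3) the dimensions are determined by these numbers
    (∀ N, 1 ≤ N → ∀ f : ℕ → ℕ, (∀ n, Module.finrank ℚ (Zspace N n) = f n) ↔
      ∀ W, AlmostAll fun H k =>
        Module.finrank ℚ (relationSpace (LevelFamily N W k) H) +
          ∑ n ∈ Finset.range (W + 1), N * (N + 1) ^ (W - n) * f n =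
            ∑ n ∈ Finset.range (W + 1), N * (N + 1) ^ (W - n) * numWords N n) ∧
    (∀ ω : ℂ, ω ≠ 1 → (∃ n, 1 ≤ n ∧ ω ^ n = 1) → ∀ f : ℕ → ℕ,
      (∀ w, 1 ≤ w → Module.finrank ℚ (Cspace ω w) = f w) ↔
      ∀ W, AlmostAll fun H k =>
        Module.finrank ℚ (relationSpace (ClausenFamily ω W k) H) +
          ∑ m ∈ Finset.range W, 2 ^ (W - 1 - m) * f (m + 1) = ∑ m ∈ Finset.range W, 2 ^ (W - 1 - m) * 2 ^ m) ∧
    -- (4) the conjecture Q1
    ((∀ w, 1 ≤ w → Module.finrank ℚ (Cspace omega w) = Nat.fib (w + 1) ∧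
        Module.finrank ℚ (Zspace 2 w) = Nat.fib (w + 1)) ↔
      ∀ W, AlmostAll fun H k =>
        Module.finrank ℚ (relationSpace (ClausenFamily omega W k) H) +
          ∑ m ∈ Finset.range W, 2 ^ (W - 1 - m) * Nat.fib (m + 2) =
            ∑ m ∈ Finset.range W, 2 ^ (W - 1 - m) * 2 ^ m ∧
        Module.finrank ℚ (relationSpace (LevelFamily 2 W k) H) +
          ∑ n ∈ Finset.range (W + 1), 2 * 3 ^ (W - n) * Nat.fib (n + 1) =
            ∑ n ∈ Finset.range (W + 1), 2 * 3 ^ (W - n) * numWords 2 n) ∧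
    -- (5) unconditional cases
    (AlmostAll fun H k => ∀ c : Word →₀ ℤ, (∀ w ∈ c.support, w ∈ ClausenFamily omega 2 k) →
      (∀ w, |(c w : ℝ)| ≤ H) → c.sum (fun w x => (x : ℂ) * Li w) = 0 → c = 0) ∧
    (AlmostAll fun H k => ∀ c : Word →₀ ℤ, (∀ w ∈ c.support, w ∈ LevelFamily 2 1 k) →
      (∀ w, |(c w : ℝ)| ≤ H) → c.sum (fun w x => (x : ℂ) * Li w) = 0 → c = 0) ∧
    (AlmostAll fun H k => Module.finrank ℚ (relationSpace (LevelFamily 2 2 k) H) = 4) := by
  have hZ0 : Module.finrank ℚ (Zspace 2 0) = 1 := by rw [Zspace_eq, Pool.Agent.H43L.dim_Z0]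
  have hZ1 : Module.finrank ℚ (Zspace 2 1) = 1 := by rw [Zspace_eq, Pool.Agent.H43L.dim_Z1]
  have hZ2 : Module.finrank ℚ (Zspace 2 2) = 2 := by rw [Zspace_eq, Pool.Agent.H43L.dim_Z2]
  have hC1 : Module.finrank ℚ (Cspace omega 1) = 1 := by rw [Cspace_eq]; exact Pool.Agent.H43L.dim_C1
  have hC2 : Module.finrank ℚ (Cspace omega 2) = 2 := by rw [Cspace_eq]; exact Pool.Agent.H43L.dim_C2
  have n0 : numWords 2 0 = 1 := rfl
  have n1 : numWords 2 1 = 1 := rfl
  have n2 : numWords 2 2 = 4 := rfl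
  refine ⟨⟨fun N hN n => ?_, fun N hN n => ?_, fun ω n => ?_, fun N hN W k => Pool.Agent.H43L.fin_LF N hN W k,
    fun ω W k => Pool.Agent.H43L.fin_CFm ω W k, fun F hF H => ?_⟩, level, ?_, level_iff, ?_, ?_, ?_, ?_, ?_⟩
  · rw [num_eq]
    exact Pool.Agent.H43L.ncard_adm N hN n
  · rw [Zspace_eq]
    exact Pool.Agent.H43L.fin_Zs N hN n
  · rw [Cspace_eq]
    exact Pool.Agent.H43L.fin_Cs ω n
  · rw [relationSpace_eq]
    exact Pool.Agent.H43L.fin_rel hF H
  · rintro ω h1 ⟨n, hn, hω⟩ W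
    exact clausen ω n hn hω h1 W
  · rintro ω h1 ⟨n, hn, hω⟩ f
    exact clausen_iff ω n hn hω h1 f
  · have e1 := clausen_iff omega 6 (by norm_num) omega_six omega_ne fun w => Nat.fib (w + 1)
    have e2 := level_iff 2 (by norm_num) fun w => Nat.fib (w + 1)
    constructor
    · intro h W
      have h1 := e1.1 (fun w hw => (h w hw).1) W
      have h2 := e2.1 (fun w => by
        rcases Nat.eq_zero_or_pos w with rfl | hw
        · rw [hZ0]
          rfl
        · exact (h w hw).2) W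
      exact h1.and h2
    · intro h w hw
      exact ⟨e1.2 (fun W => (h W).mono fun _ _ _ h => h.1) w hw,
        e2.2 (fun W => (h W).mono fun _ _ _ h => h.2) w⟩
  · refine (clausen omega 6 (by norm_num) omega_six omega_ne 2).mono fun H k hH h => ?_
    rw [sum_range_succ, sum_range_succ, sum_range_zero, sum_range_succ, sum_range_succ, sum_range_zero,
      zero_add, hC1, hC2] at h
    intro c h1 h2 h3
    refine no_relation (Pool.Agent.H43L.fin_CFm omega 2 k) ?_ c h1 h2 h3
    have hr : ∀ r : ℕ, Module.finrank ℚ (relationSpace (ClausenFamily omega 2 k) H) = r → r = 0 := by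
      intro r hr
      rw [hr] at h
      norm_num at h
      exact h
    exact hr _ rfl
  · refine (level 2 (by norm_num) 1).mono fun H k hH h => ?_
    rw [sum_range_succ, sum_range_succ, sum_range_zero, sum_range_succ, sum_range_succ, sum_range_zero,
      hZ0, hZ1, n0, n1] at h
    intro c h1 h2 h3
    refine no_relation (Pool.Agent.H43L.fin_LF 2 (by norm_num) 1 k) ?_ c h1 h2 h3
    exact Nat.add_right_cancel (h.trans (zero_add _).symm)
  · refine (level 2 (by norm_num) 2).mono fun H k hH h => ?_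
    rw [sum_range_succ, sum_range_succ, sum_range_succ, sum_range_zero, sum_range_succ, sum_range_succ,
      sum_range_succ, sum_range_zero, hZ0, hZ1, hZ2, n0, n1, n2] at h
    norm_num at h
    omega

end Pool.Agent.Results.MP_528be1_nt.RelationCounts
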