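import Mathlib
import Pool.Agent.H56Q.Cmp

/-!
# Torsors and full faithfulness for the motives behind the multiple Clausen values and the alternating multiple zeta values

## The motives

Let `F = ℚ(√-3)`, with an embedding in `ℂ`, and `ω = exp (π i / 3)`. The mixed Tate motives over `F` form a Tannakian
category over `ℚ` with the canonical fibre functor and the Betti fibre functor. The Tannaka group for the first is
`U ⋊ 𝔾_m`, and the graded Lie algebra of `U` is free, with one generator `σ_n` of degree `n` for every `n ≥ 2`, because
`K_{2 n - 1}(F)` has rank one, and generators of degree one for a basis of `F^* ⊗ ℚ` (Borel, Deligne, Goncharov). We take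
a basis that contains the primes, with generators `σ_p`, and look at the motives on which the other generators of degree
one act as zero. Such a motive with a graded basis of its canonical realization is the same as a `Mot degree ι` (see
`Pool/Agent/H56P/Defs.lean`): the degrees of the basis vectors (`k` for the weight `-2 k`) and the nilpotent matrices `N l`
of the generators, of which only finitely many are not zero. The complex points of the motivic Galois group of `M` are
the group `gal M` generated by the `exp (c N_l)` and the `t ^ deg`.

For a set `S` of generators and `D ∈ {0, 1, 2, …, ∞}` let `T(S, D)` be the class of the motives on which the generators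
outside of `S` act as zero, and whose weights lie in an interval of length `2 D` (`InClass`). The two categories of
the question are of this kind: for the multiple Clausen values `MT(ℤ[ω]) = T(S, ∞)`, `S` the set of all numbers `n ≥ 2`, and
for the alternating multiple zeta values `MT(ℤ[1/2]) = T(S, ∞)`, `S` the set of the prime `2` and all odd `n ≥ 3`. By the
theorem of Deligne on the motivic fundamental groups of `𝔾_m - μ_N` for `N = 2, 6` the dimensions predicted in Q1, the
Fibonacci numbers, are those of the spaces of the corresponding motivic periods, and the injectivity of the period maps of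
these two categories implies Q1.

The torsor of the isomorphisms from the canonical to the Betti fibre functor has a rational point `e`, because all
torsors of `U ⋊ 𝔾_m` over `ℚ` are trivial. We use `e` to identify this torsor with the group. The comparison
isomorphism becomes a complex point `x` of the group, that is, a family of elements `x(M)` of the groups `gal M` which is
compatible with all morphisms (`Point`). On the Tate motive `ℚ(1)` it is `τ = q / (2 π i)` with a rational number `q ≠ 0`,
and on the extension of `ℚ(0)` by `ℚ(n)` which is given by the generator `σ_n` (by `σ_p`) its only other entry is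
`a μ_n τ ^ n + b` with the multiple Clausen value `μ_n = Li_n(ω)` of depth one (is `a log(p) τ + b`), with rational numbers
`a ≠ 0` and `b`; the numbers `q` and `b` depend on `e` (`Comparison`). This is all that is used about `x`; the theorem holds
for all such `x`, and there are such `x`.

## The theorem

1. The following are equivalent, for all `S` and `D`:
   * `ζ(n)` is irrational for all odd `n ≥ 3` in `S` with `n ≤ D` (`OddIrrational`);
   * for all `M` in `T(S, D)` the elements `x(M)⁻¹ s(x(M))`, where `s` runs through the automorphisms of the field `ℂ`,
     generate the group `gal M` (`Generated`);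
   * for all `M` in `T(S, D)` every torsor over `ℚ` which contains `x(M)` contains `gal M` (`NoSmallerTorsor`);
   * if `M ⊕ M'` is in `T(S, D)` and the rational matrices `F`, `F'` satisfy `F x(M) = x(M') F'`, then `F = F'` is a
     morphism: the realization in the category of pairs of rational vector spaces with an isomorphism over `ℂ` is fully
     faithful (`FullyFaithful`).
   There is no condition on the Clausen values `μ_n` of even weight.
2. They are true for `T(S, ∞)`, `S` the set of all primes, all even `n ≥ 2`, `3` and `5`, and for all generators and
   `D = 6`.
3. For all generators and `D = 8` full faithfulness is equivalent to the irrationality of `ζ(7)`.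
4. There is a set `S`, which contains all primes, all even `n ≥ 2`, the numbers `3` and `5` and for all odd `s` an odd number
   in `[s + 2, 18 s / 5)`, such that they are true for `T(S, ∞)`.

## Proof

For even `n` the number `τ ^ n` is real and the imaginary part of `μ_n` is positive, so `μ_n τ ^ n` is not in
`ℚ + ℚ τ ^ n`. For odd `n` the number `τ ^ n` is purely imaginary, the real part of `μ_n` is
`(1 - 2 ^ (1 - n)) (1 - 3 ^ (1 - n)) ζ(n) / 2`, and the imaginary part is in `ℚ π ^ n`, a value of a Bernoulli polynomial;
so `μ_n τ ^ n` is in `ℚ + ℚ τ ^ n` if and only if `ζ(n)` is rational. The rest is the theory of `Pool/Agent/H56P` for free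
graded Lie algebras: let `H` be the group generated by the `x⁻¹ s(x)`. Add `ℚ(1)` and the simple extensions to `M`. The
elements of `H` have arbitrary scalars on `ℚ(1)`, since `π` is transcendental. The coordinates of the unipotent elements of
`H` in the simple extensions form a graded subspace, stable under the automorphisms of `ℂ`, and if it is not everything, then
a rational combination of the periods of the simple extensions of some degree `d` is in `ℚ + ℚ τ ^ d`. Hence `H` contains
all unipotent elements up to commutators, and so all of them, because the unipotent part of `gal M` is nilpotent. The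
irrational zeta values in 2 and 4 are those of the starting results `WindowsRatio36` and `ZetaFiveMeasureSharp` of
`MP_c2395a_nt`.
-/

set_option autoImplicit false

namespace Pool.Agent.Results.MP_528be1_nt.TorsorsOfClausenValues

open Pool.Agent.H56Q

/-- all primes, all even degrees, and the degrees `3` and `5` -/
def evenAndSmall : Set Generator := {l | ∀ j : ℕ, l = .inr (2 * j + 1) → j ≤ 1}

theorem irr_evenAndSmall : OddIrrational evenAndSmall ⊤ := by
  intro k hk _
  have h1 : k ≤ 1 := hk k rfl
  have : k = 0 ∨ k = 1 := by omega
  rcases this with rfl | rfl
  · exact Pool.Agent.H56P.zeta_three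
  · exact Pool.Agent.H56P.zeta_five

/-- **Theorem.** See the beginning of the file. -/
theorem result : Nonempty Comparison ∧ ∀ C : Comparison,
    (∀ (S : Set Generator) (D : ℕ∞),
      List.TFAE [OddIrrational S D, Generated C S D, NoSmallerTorsor C S D, FullyFaithful C S D]) ∧
    (Generated C evenAndSmall ⊤ ∧ NoSmallerTorsor C evenAndSmall ⊤ ∧ FullyFaithful C evenAndSmall ⊤) ∧
    (Generated C Set.univ 6 ∧ NoSmallerTorsor C Set.univ 6 ∧ FullyFaithful C Set.univ 6) ∧
    (FullyFaithful C Set.univ 8 ↔ Irrational (Pool.Agent.H56P.zeta 7)) ∧
    (∃ S : Set Generator, (∀ p, .inl p ∈ S) ∧ (∀ k, .inr (2 * k) ∈ S) ∧ .inr 1 ∈ S ∧ .inr 3 ∈ S ∧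
      (∀ s : ℕ, Odd s → ∃ k : ℕ, .inr (2 * k + 1) ∈ S ∧ s + 2 ≤ 2 * k + 3 ∧ 5 * (2 * k + 3) < 18 * s) ∧
      Generated C S ⊤ ∧ NoSmallerTorsor C S ⊤ ∧ FullyFaithful C S ⊤) := by
  refine ⟨nonempty_comparison, fun C => ⟨fun S D => tfae C S D,
    ⟨((tfae C _ _).out 0 1).1 irr_evenAndSmall, ((tfae C _ _).out 0 2).1 irr_evenAndSmall,
      ((tfae C _ _).out 0 3).1 irr_evenAndSmall⟩,
    ⟨((tfae C _ _).out 0 1).1 irr_six, ((tfae C _ _).out 0 2).1 irr_six,
      ((tfae C _ _).out 0 3).1 irr_six⟩, ?_, ?_⟩⟩
  · have h0 : OddIrrational Set.univ 8 ↔ FullyFaithful C Set.univ 8 :=
      (tfae C Set.univ 8).out 0 3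
    rw [← h0, irr_eight]
  · obtain ⟨S, h1, h2, h3, h4, h5, h6⟩ := exists_generators
    exact ⟨S, h1, h2, h3, h4, h5,
      ((tfae C _ _).out 0 1).1 h6, ((tfae C _ _).out 0 2).1 h6, ((tfae C _ _).out 0 3).1 h6⟩

end Pool.Agent.Results.MP_528be1_nt.TorsorsOfClausenValues
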